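import Pool.Agent.Lib.MP_c29043_lc.Unary

/-!
# Orientation-compatible covers in polynomial time for weights in unary
-/

set_option autoImplicit false

open Pool.Agent.Lib.MP_c29043_lc

/-- There is a polynomial time algorithm for orientation-compatible covers if the weights are given
in unary, as the lengths of lists. -/
theorem Pool.Agent.Lib.MP_c29043_lc.Old.UnaryWeights.result :
    ∃ f : List ((ℕ × ℕ) × List Bool) → List (ℕ × ℕ), N68a2faeb.IsPolyTime f ∧
      ∀ A, (∀ a ∈ A, Even a.2.length) →
        IsCover (A.map fun a => (a.1, a.2.length)) (vec (f A)) :=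
  unary_main
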